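import Pool.Agent.PV3.Stmts

/-!
Squad PV3, module SPO: a body with the data of a polytope is a polytope with the same normals up
to sign.
-/

set_option autoImplicit false

open MeasureTheory Metric Set Filter Topology Pointwise

namespace PV3.H5

open PV PV3

lemma bdd_inner {n : ℕ} {L : Set (E n)} (hL : IsCompact L) (w : E n) :
    BddAbove ((fun x => inner ℝ x w) '' L) :=
  (hL.image (continuous_id.inner continuous_const)).bddAbove

lemma vol_eq {n : ℕ} (S : Set (ℝ × E n)) :
    ∫ p in S, ((0 : (ℝ × E n) →L[ℝ] ℝ) p + 1)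
      ∂((volume : Measure ℝ).prod (volume : Measure (E n))) =
    ((volume : Measure ℝ).prod (volume : Measure (E n))).real S := by
  simp only [zero_apply, zero_add, integral_const, smul_eq_mul, mul_one]
  rw [measureReal_restrict_apply_univ]

theorem spo (hgen : GENStmt) (hcoo : COOStmt) (hreg : REGStmt) (hsek : SEKStmt)
    (hsel : SELStmt) : SPOStmt := by
  intro n hn U c L hU hP hL hD
  apply Subset.antisymm
  · intro x hx w _
    exact le_csSup (bdd_inner hL.cpt w) ⟨x, hx, rfl⟩
  · intro x hx
    by_contra hxL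
    obtain ⟨y, ν, ρ, hρ, hν, hball, hsup, hlt⟩ := hreg n (by omega) L hL x hxL
    have hLs : hs L ν ≤ inner ℝ y ν + ρ := by
      apply csSup_le
      · obtain ⟨z, hz⟩ := hL.full
        exact ⟨_, z, interior_subset hz, rfl⟩
      · rintro _ ⟨z, hz, rfl⟩
        exact hsup z hz
    by_cases h : ν ∈ U ∨ -ν ∈ U
    · have := hx ν h
      linarith
    · rw [not_or] at h
      obtain ⟨m, rfl⟩ : ∃ m, n = m + 2 := ⟨n - 2, by omega⟩
      obtain ⟨u, hu, huν, hu2⟩ := hgen (m + 2) hn U ν hU hν
      obtain ⟨ι, hι1, hι2, -⟩ := hcoo m u ν hu hν huν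
      have hw : ∀ w ∈ U, inner ℝ u w ≠ 0 := by
        intro w hw
        refine hu2 w hw ?_ ?_
        · rintro rfl
          exact h.1 hw
        · rintro rfl
          exact h.2 hw
      obtain ⟨δ, hδ, hK⟩ := hsek m U c u ν ι hU hP.cpt.isBounded hu hν huν hι1 hι2 hw
      have h1 := hK (δ / 2) (by rw [abs_of_pos (by linarith)]; linarith)
      have h2 := hsel m L u ν y ρ ι hL hu hν huν hι1 hι2 hρ hball hsup (δ / 2) (by linarith)
      have hT : ∀ t : ℝ,
          ((volume : Measure ℝ).prod (volume : Measure (E m))).real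
            (shadow t (coord u ν ι ⁻¹' Pl U c)) =
          ((volume : Measure ℝ).prod (volume : Measure (E m))).real
            (shadow t (coord u ν ι ⁻¹' L)) := by
        intro t
        rw [← vol_eq, ← vol_eq]
        exact PV.tr (m + 2) (E m) volume u ν ι (by simp) hu hν huν hι1 hι2 (Pl U c) L hP.cpt
          hL.cpt hP.full hL.full hD t 0 1
      rw [← hT, ← hT, ← hT] at h2
      linarith

end PV3.H5
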